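import Pool.Agent.H90.EH.LayerT
import Pool.Agent.H15.EH.A24

/-!
# EHP (S06849): block `compare` of `Energy.lean`, from the facts on the layer defect `Dd`
-/

set_option autoImplicit false

open MeasureTheory Set Filter Topology
open scoped Real

noncomputable section

namespace Pool.Agent.H90.EH

open Pool.Agent.H24.EH
open Pool.Agent.H15.EH (FData D U FF_data)
open Pool.Agent.H56.EH (Nv Nz)

/-! ### the range -/

theorem rho_pos (l : ℝ) : 0 < rho l := by unfold rho; positivity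

theorem cosh_Mx (l : ℝ) : Real.cosh (Mx l) = 2 * rho l + 1 := by
  unfold Mx
  exact Real.cosh_arcosh (by linarith [rho_pos l])

theorem Mx_nonneg (l : ℝ) : 0 ≤ Mx l := Real.arcosh_nonneg (by linarith [rho_pos l])

theorem Mx_pos (l : ℝ) : 0 < Mx l := by
  refine lt_of_le_of_ne (Mx_nonneg l) fun h => ?_
  have h1 := cosh_Mx l
  rw [← h, Real.cosh_zero] at h1
  linarith [rho_pos l]

theorem Mx_mono {l l' : ℝ} (h : l ≤ l') : Mx l ≤ Mx l' := by
  unfold Mx
  have h0 := rho_pos l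
  have h1 := rho_pos l'
  rw [Real.arcosh_le_arcosh (by linarith) (by linarith)]
  have : rho l ≤ rho l' := by
    unfold rho
    have := Real.exp_le_exp.2 h
    linarith
  linarith

theorem cosh_mn (l : ℝ) : Real.cosh (mn l) = max 1 (2 * rho l - 1) := by
  unfold mn
  exact Real.cosh_arcosh (le_max_left _ _)

theorem mn_nonneg (l : ℝ) : 0 ≤ mn l := Real.arcosh_nonneg (le_max_left _ _)

theorem rho_lt_one {l : ℝ} (h : l < Real.log 4) : rho l < 1 := by
  unfold rho
  have h1 := Real.exp_lt_exp.2 h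
  rw [Real.exp_log (by norm_num)] at h1
  linarith

theorem one_le_rho {l : ℝ} (h : Real.log 4 ≤ l) : 1 ≤ rho l := by
  unfold rho
  have h1 := Real.exp_le_exp.2 h
  rw [Real.exp_log (by norm_num)] at h1
  linarith

theorem cosh_Bp_ge {η l t : ℝ} (hη : 0 < η) (h : Real.log 4 ≤ l → mn l < t) :
    2 * rho l - 1 ≤ Real.cosh (Bp η t) ∧ rho l ≤ Real.cosh (Bp η t) := by
  have hP := Bp_prof hη
  have hge := hP.ge t
  have hpos := hP.pos t
  rcases le_or_gt (Real.log 4) l with h4 | h4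
  · have h5 : Real.cosh (mn l) ≤ Real.cosh (Bp η t) := by
      apply Real.cosh_le_cosh.2
      rw [abs_of_pos hpos, abs_of_nonneg (mn_nonneg l)]
      linarith [h h4]
    rw [cosh_mn] at h5
    have h6 := (le_max_right _ _).trans h5
    have h7 := one_le_rho h4
    exact ⟨h6, by linarith⟩
  · have := rho_lt_one h4
    have := Real.one_le_cosh (Bp η t)
    constructor <;> linarith

theorem range_ok {η l t : ℝ} (hη : 0 < η) (hM : 3 * η ≤ Mx l) (htM : t ≤ Mx l)
    (h : Real.log 4 ≤ l → mn l < t) : |Real.cosh (Bp η t) - 2 * rho l| ≤ 1 := by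
  have hP := Bp_prof hη
  have hpos := hP.pos t
  have hle : Bp η t ≤ Mx l := by
    rcases le_total t (3 * η) with h3 | h3
    · exact (hP.le t h3).trans hM
    · rw [hP.high t h3]; exact htM
  have h1 : Real.cosh (Bp η t) ≤ 2 * rho l + 1 := by
    rw [← cosh_Mx]
    apply Real.cosh_le_cosh.2
    rw [abs_of_pos hpos, abs_of_nonneg (Mx_nonneg l)]
    exact hle
  have h2 := (cosh_Bp_ge hη h).1
  rw [abs_le]
  constructor <;> linarith

theorem one_le_mn {l : ℝ} (h : Real.log 8 ≤ l) : 1 ≤ mn l := by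
  have h1 : Real.cosh 1 ≤ 3 := by
    rw [Real.cosh_eq]
    have h2 := Real.exp_one_lt_d9
    have h3 : Real.exp (-1) ≤ 1 := Real.exp_le_one_iff.2 (by norm_num)
    linarith
  have h2 : 2 ≤ rho l := by
    unfold rho
    have := Real.exp_le_exp.2 h
    rw [Real.exp_log (by norm_num)] at this
    linarith
  have h3 : Real.arcosh (Real.cosh 1) ≤ mn l := by
    unfold mn
    rw [Real.arcosh_le_arcosh (Real.cosh_pos 1) (lt_of_lt_of_le one_pos (le_max_left _ _))]
    exact h1.trans (le_trans (by linarith) (le_max_right _ _))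
  rwa [Real.arcosh_cosh (by norm_num)] at h3

/-! ### comparison on one circle -/

variable {F Fl Fg Fll Flg Fgg Fllg : ℝ → ℝ → ℝ}

theorem compare_circle {n : ℕ} {a : Fin n → ℂ} {p c : ℝ}
    (hF : FHyp p c F Fl Fg Fll Flg Fgg Fllg) (hyQ : YData (yQ a)) (hyV : YData yV)
    (hD0 : ∀ l t, 0 ≤ t → 0 ≤ Dd a l t) (hQ : ∀ l φ, yQ a (l, φ) ≤ Mx l)
    (hV : ∀ l φ, yV (l, φ) ≤ Mx l)
    (hz : ∀ l t, Real.log 4 ≤ l → t ≤ mn l → Dd a l t = 0)
    {η l : ℝ} (hη : 0 < η) (hM : 3 * η ≤ Mx l) :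
    (∫ φ in (0 : ℝ)..2 * π, qf Fl Fg Fll Flg Fgg η l (yQ a (l, φ))) -
      (∫ φ in (0 : ℝ)..2 * π, qf Fl Fg Fll Flg Fgg η l (yV (l, φ))) ≤
      ∫ t in η..3 * η, 2 * B2 η t * |Fll l (Bp η t) * Fg l (Bp η t)| * Dd a l t := by
  have cQ : Continuous fun φ => yQ a (l, φ) := by
    have := hyQ.cont
    fun_prop
  have cV : Continuous fun φ => yV (l, φ) := by
    have := hyV.cont
    fun_prop
  have h := layer_FData hF.data (Bp_prof hη) (a := 0) (b := 2 * π) (M := Mx l) (by positivity) hM l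
    (X := fun φ => yQ a (l, φ)) (Y := fun φ => yV (l, φ))
    (cQ.max continuous_const).continuousOn (fun φ _ => hQ l φ)
    (cV.max continuous_const).continuousOn (fun φ _ => hV l φ)
    (fun t ht => hD0 l t (hη.le.trans ht.1)) (fun t ht h0 => ?_)
  · exact h
  · refine hF.sign l (Bp η t) ((Bp_prof hη).pos t) (range_ok hη hM ht.2 fun h4 => ?_)
    by_contra h5
    exact h0 (hz l t h4 (not_lt.1 h5))

/-! ### the error bound -/

theorem chi''_le (x : ℝ) : chi'' x ≤ 1 := by
  unfold chi''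
  split_ifs with h1 h2
  · norm_num
  · nlinarith [sq_nonneg x]
  · norm_num

theorem B2_le {η : ℝ} (hη : 0 < η) (t : ℝ) : B2 η t ≤ 1 / η := by
  unfold B2
  exact div_le_div_of_nonneg_right (chi''_le _) hη.le

theorem two_le_Bp {η : ℝ} (hη : 0 < η) (t : ℝ) : 2 * η ≤ Bp η t := by
  unfold Bp
  have := mul_nonneg hη.le (chi_nonneg ((t - 2 * η) / η))
  linarith

/-- `|rho l - p| ≥ c |l - log (4p)|` for `l ≥ l₁` -/
theorem rho_sub_ge {p l₁ : ℝ} (hp : 0 < p) : ∃ c, 0 < c ∧ ∀ l, l₁ ≤ l →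
    c * |l - Real.log (4 * p)| ≤ |rho l - p| := by
  set l0 := Real.log (4 * p) with hl0
  have hr : ∀ l, rho l = p * Real.exp (l - l0) := by
    intro l
    unfold rho
    rw [Real.exp_sub, hl0, Real.exp_log (by positivity)]
    field_simp
  refine ⟨p * min 1 (Real.exp (l₁ - l0)), by positivity, fun l hl => ?_⟩
  rw [hr l]
  have e1 : p * Real.exp (l - l0) - p = p * (Real.exp (l - l0) - 1) := by ring
  rw [e1, abs_mul, abs_of_pos hp, mul_assoc]
  refine mul_le_mul_of_nonneg_left ?_ hp.le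
  set x := l - l0 with hx
  rcases le_total 0 x with h | h
  · rw [abs_of_nonneg h, abs_of_nonneg (by linarith [Real.add_one_le_exp x])]
    calc min 1 (Real.exp (l₁ - l0)) * x ≤ 1 * x :=
          mul_le_mul_of_nonneg_right (min_le_left _ _) h
      _ ≤ Real.exp x - 1 := by linarith [Real.add_one_le_exp x]
  · have h3 : Real.exp x ≤ 1 := Real.exp_le_one_iff.2 h
    rw [abs_of_nonpos h, abs_of_nonpos (by linarith)]
    have h4 : Real.exp (l₁ - l0) ≤ Real.exp x := Real.exp_le_exp.2 (by linarith)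
    have h5 := Real.add_one_le_exp (-x)
    have h6 : Real.exp x * Real.exp (-x) = 1 := by rw [← Real.exp_add]; simp
    have h7 : 0 < Real.exp x := Real.exp_pos x
    calc min 1 (Real.exp (l₁ - l0)) * -x ≤ Real.exp x * -x := by
          refine mul_le_mul_of_nonneg_right ((min_le_right _ _).trans h4) (by linarith)
      _ ≤ -(Real.exp x - 1) := by nlinarith

theorem compare_err {n : ℕ} {a : Fin n → ℂ} {p c : ℝ} (hp : 0 < p)
    (hF : FHyp p c F Fl Fg Fll Flg Fgg Fllg)
    (hD0 : ∀ l t, 0 ≤ t → 0 ≤ Dd a l t)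
    (hz : ∀ l t, Real.log 4 ≤ l → t ≤ mn l → Dd a l t = 0) (l₁ : ℝ)
    (hb : ∃ K, ∀ l t, l₁ ≤ l → 0 ≤ t → t ≤ 1 →
      Dd a l t ≤ K * ((l - Real.log (4 * p)) ^ 2 + t ^ 2)) :
    ∃ C c₀, 0 ≤ C ∧ 0 < c₀ ∧ ∀ η l, 0 < η → 3 * η ≤ 1 → l₁ ≤ l →
      ∫ t in η..3 * η, 2 * B2 η t * |Fll l (Bp η t) * Fg l (Bp η t)| * Dd a l t ≤
        C * η / (c₀ * |l - Real.log (4 * p)| + 2 * η) := by
  obtain ⟨K, hK⟩ := hF.err
  obtain ⟨K', hK'⟩ := hb
  obtain ⟨c₀, hc₀, hc⟩ := rho_sub_ge (l₁ := l₁) hp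
  set l0 := Real.log (4 * p) with hl0
  set C1 : ℝ := 1 / c₀ ^ 2 + 9 / 4 with hC1
  have hC1p : 0 < C1 := by positivity
  refine ⟨24 * |K| * |K'| * C1, c₀, by positivity, hc₀, fun η l hη hη1 hl => ?_⟩
  have hden : 0 < c₀ * |l - l0| + 2 * η := by positivity
  rcases le_or_gt l (Real.log 8) with h8 | h8
  · set s := |rho l - p| with hs
    have hs0 : 0 ≤ s := abs_nonneg _
    have hsc := hc l hl
    have hr2 : rho l ≤ 2 := by
      unfold rho
      have := Real.exp_le_exp.2 h8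
      rw [Real.exp_log (by norm_num)] at this
      linarith
    have key : ∀ t ∈ Set.uIoc η (3 * η),
        ‖2 * B2 η t * |Fll l (Bp η t) * Fg l (Bp η t)| * Dd a l t‖ ≤
          12 * |K| * |K'| * C1 / (s + 2 * η) := by
      intro t ht
      rw [uIoc_of_le (by linarith)] at ht
      have hP := Bp_prof hη
      by_cases hDz : Dd a l t = 0
      · rw [hDz]
        simp only [mul_zero, norm_zero]
        positivity
      have hcosh := (cosh_Bp_ge hη (l := l) (t := t) fun h4 => by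
        by_contra h5
        exact hDz (hz l t h4 (not_lt.1 h5))).2
      have ht0 : 0 ≤ t := by linarith [ht.1]
      have hD := hD0 l t ht0
      have hB20 := hP.nonneg t
      have hB1 := B2_le hη t
      have hB2' := two_le_Bp hη t
      have hB3 := hP.le t ht.2
      have hDle := hK' l t hl ht0 (by linarith [ht.2])
      have herr := hK l (Bp η t) hcosh (hP.pos t) (by linarith)
      rw [Real.norm_eq_abs, abs_of_nonneg (by positivity)]
      -- bound of the second factor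
      have e1 : |Fll l (Bp η t) * Fg l (Bp η t)| ≤ 6 * |K| * η / (s + 2 * η) ^ 3 := by
        refine herr.trans ?_
        have h1 : K * rho l * Bp η t ≤ 6 * |K| * η := by
          have h2 : 0 ≤ rho l * Bp η t := mul_nonneg (rho_pos l).le (hP.pos t).le
          have h3 : rho l * Bp η t ≤ 2 * (3 * η) :=
            mul_le_mul hr2 hB3 (hP.pos t).le (by norm_num)
          calc K * rho l * Bp η t = K * (rho l * Bp η t) := by ring
            _ ≤ |K| * (rho l * Bp η t) := mul_le_mul_of_nonneg_right (le_abs_self K) h2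
            _ ≤ |K| * (2 * (3 * η)) := mul_le_mul_of_nonneg_left h3 (abs_nonneg K)
            _ = 6 * |K| * η := by ring
        have h4 : (s + 2 * η) ^ 3 ≤ (s + Bp η t) ^ 3 :=
          pow_le_pow_left₀ (by positivity) (by linarith) 3
        have h5 : 0 < (s + 2 * η) ^ 3 := by positivity
        calc K * rho l * Bp η t / (s + Bp η t) ^ 3 ≤ 6 * |K| * η / (s + Bp η t) ^ 3 :=
              div_le_div_of_nonneg_right h1 (le_trans h5.le h4)
          _ ≤ 6 * |K| * η / (s + 2 * η) ^ 3 :=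
              div_le_div_of_nonneg_left (by positivity) h5 h4
      have e2 : Dd a l t ≤ |K'| * C1 * (s + 2 * η) ^ 2 := by
        refine hDle.trans ?_
        have h1 : (l - l0) ^ 2 ≤ 1 / c₀ ^ 2 * (s + 2 * η) ^ 2 := by
          have h2 : c₀ * |l - l0| ≤ s + 2 * η := by linarith
          have h3 : (c₀ * |l - l0|) ^ 2 ≤ (s + 2 * η) ^ 2 :=
            pow_le_pow_left₀ (by positivity) h2 2
          rw [mul_pow, sq_abs] at h3
          rw [one_div, ← div_eq_inv_mul, le_div_iff₀ (by positivity)]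
          linarith
        have h4 : t ^ 2 ≤ 9 / 4 * (s + 2 * η) ^ 2 := by
          have h5 : t ≤ 3 / 2 * (s + 2 * η) := by linarith [ht.2]
          have h6 : t ^ 2 ≤ (3 / 2 * (s + 2 * η)) ^ 2 := pow_le_pow_left₀ ht0 h5 2
          calc t ^ 2 ≤ (3 / 2 * (s + 2 * η)) ^ 2 := h6
            _ = 9 / 4 * (s + 2 * η) ^ 2 := by ring
        have h7 : 0 ≤ (l - l0) ^ 2 + t ^ 2 := by positivity
        calc K' * ((l - l0) ^ 2 + t ^ 2) ≤ |K'| * ((l - l0) ^ 2 + t ^ 2) :=
              mul_le_mul_of_nonneg_right (le_abs_self K') h7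
          _ ≤ |K'| * (C1 * (s + 2 * η) ^ 2) := by
              refine mul_le_mul_of_nonneg_left ?_ (abs_nonneg K')
              rw [hC1]
              linarith
          _ = |K'| * C1 * (s + 2 * η) ^ 2 := by ring
      have hs2 : 0 < s + 2 * η := by positivity
      calc 2 * B2 η t * |Fll l (Bp η t) * Fg l (Bp η t)| * Dd a l t
          ≤ 2 * (1 / η) * (6 * |K| * η / (s + 2 * η) ^ 3) * (|K'| * C1 * (s + 2 * η) ^ 2) := by
            refine mul_le_mul (mul_le_mul (by linarith) e1 (abs_nonneg _) (by positivity)) e2 hD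
              (by positivity)
        _ = 12 * |K| * |K'| * C1 / (s + 2 * η) := by
            field_simp
            ring
    have h1 := intervalIntegral.norm_integral_le_of_norm_le_const key
    have h2 : |3 * η - η| = 2 * η := by
      rw [abs_of_nonneg (by linarith)]; ring
    rw [h2] at h1
    refine (le_abs_self _).trans (h1.trans ?_)
    have hs2 : 0 < s + 2 * η := by positivity
    calc 12 * |K| * |K'| * C1 / (s + 2 * η) * (2 * η)
        = 24 * |K| * |K'| * C1 * η / (s + 2 * η) := by ring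
      _ ≤ 24 * |K| * |K'| * C1 * η / (c₀ * |l - l0| + 2 * η) :=
          div_le_div_of_nonneg_left (by positivity) hden (by linarith)
  · have h0 : ∫ t in η..3 * η, 2 * B2 η t * |Fll l (Bp η t) * Fg l (Bp η t)| * Dd a l t = 0 := by
      rw [intervalIntegral.integral_congr (g := fun _ => (0 : ℝ))]
      · simp
      · intro t ht
        rw [uIcc_of_le (by linarith)] at ht
        have h4 : Real.log 4 ≤ l := by
          have : Real.log 4 ≤ Real.log 8 := Real.log_le_log (by norm_num) (by norm_num)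
          linarith
        have := hz l t h4 (by linarith [one_le_mn h8.le, ht.2])
        simp [this]
    rw [h0]
    positivity

/-! ### dominated convergence -/

theorem err_tendsto (C c₀ l0 l₁ l₂ : ℝ) (hC : 0 ≤ C) (hc₀ : 0 < c₀) :
    Tendsto (fun η : ℝ => ∫ l in l₁..l₂, C * η / (c₀ * |l - l0| + 2 * η)) (𝓝[>] 0) (𝓝 0) := by
  have h := intervalIntegral.tendsto_integral_filter_of_dominated_convergence
    (μ := volume) (a := l₁) (b := l₂) (l := 𝓝[>] (0 : ℝ)) (f := fun _ => (0 : ℝ))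
    (F := fun η l => C * η / (c₀ * |l - l0| + 2 * η)) (fun _ => C / 2) ?_ ?_ ?_ ?_
  · simpa using h
  · filter_upwards [self_mem_nhdsWithin] with η hη
    have hη' : 0 < η := hη
    refine Continuous.aestronglyMeasurable ?_
    refine continuous_const.div (by fun_prop) fun l => ?_
    positivity
  · filter_upwards [self_mem_nhdsWithin] with η hη
    have hη' : 0 < η := hη
    refine Filter.Eventually.of_forall fun l _ => ?_
    have hden : 0 < c₀ * |l - l0| + 2 * η := by positivity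
    rw [Real.norm_eq_abs, abs_of_nonneg (by positivity), div_le_iff₀ hden]
    have : 0 ≤ C * (c₀ * |l - l0|) := by positivity
    nlinarith
  · exact intervalIntegrable_const
  · have h0 : ∀ᵐ l : ℝ ∂volume, l ≠ l0 := by
      simp [ae_iff, measure_singleton]
    filter_upwards [h0] with l hl _
    have hpos : 0 < c₀ * |l - l0| := mul_pos hc₀ (abs_pos.2 (sub_ne_zero.2 hl))
    have h1 : Tendsto (fun η : ℝ => C * η / (c₀ * |l - l0| + 2 * η)) (𝓝 0) (𝓝 0) := by
      have h2 : ContinuousAt (fun η : ℝ => C * η / (c₀ * |l - l0| + 2 * η)) 0 := by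
        refine ContinuousAt.div (by fun_prop) (by fun_prop) ?_
        simp only [mul_zero, add_zero]
        exact hpos.ne'
      have h3 := h2.tendsto
      simpa using h3
    exact h1.mono_left nhdsWithin_le_nhds

/-! ### the theorem -/

theorem cont_circle (h : FData F Fl Fg Fll Flg Fgg Fllg) {y : ℝ × ℝ → ℝ} (hy : YData y) {η : ℝ}
    (hη : 0 < η) :
    Continuous fun l : ℝ => ∫ φ in (0 : ℝ)..2 * π, qf Fl Fg Fll Flg Fgg η l (y (l, φ)) := by
  have hd := (FF_data h hη).cont_q hη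
  have hpos : ∀ x : ℝ × ℝ, ((x.1, max (y x) η) : ℝ × ℝ) ∈ U := by
    intro x
    exact lt_of_lt_of_le hη (le_max_right _ _)
  have hm : Continuous fun x : ℝ × ℝ => ((x.1, max (y x) η) : ℝ × ℝ) := by
    have := hy.cont
    fun_prop
  have hc := hd.comp_continuous hm hpos
  have e : (fun l : ℝ => ∫ φ in (0 : ℝ)..2 * π, qf Fl Fg Fll Flg Fgg η l (y (l, φ))) =
      fun l : ℝ => ∫ φ in (0 : ℝ)..2 * π, qf Fl Fg Fll Flg Fgg η l (max (y (l, φ)) η) := by
    funext l
    refine intervalIntegral.integral_congr fun φ _ => ?_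
    rw [qf_form hη, qf_form hη l (max (y (l, φ)) η), max_eq_left (le_max_right (y (l, φ)) η)]
  rw [e]
  apply intervalIntegral.continuous_parametric_intervalIntegral_of_continuous'
  exact hc

/-- **(C) comparison of `q`**, block `compare`, from the facts on `Dd` -/
theorem compare_of {n : ℕ} {a : Fin n → ℂ} {p c : ℝ} (hT : Touch a p)
    (hF : FHyp p c F Fl Fg Fll Flg Fgg Fllg) (hyQ : YData (yQ a)) (hyV : YData yV)
    (hD0 : ∀ l t, 0 ≤ t → 0 ≤ Dd a l t) (hQ : ∀ l φ, yQ a (l, φ) ≤ Mx l)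
    (hV : ∀ l φ, yV (l, φ) ≤ Mx l)
    (hz : ∀ l t, Real.log 4 ≤ l → t ≤ mn l → Dd a l t = 0)
    (hb : ∀ l₁, ∃ K, ∀ l t, l₁ ≤ l → 0 ≤ t → t ≤ 1 →
      Dd a l t ≤ K * ((l - Real.log (4 * p)) ^ 2 + t ^ 2))
    (l₁ l₂ : ℝ) (hl : l₁ ≤ l₂) (ε : ℝ) (hε : 0 < ε) : ∃ η₀, 0 < η₀ ∧ ∀ η, 0 < η → η ≤ η₀ →
    (∫ l in l₁..l₂, ∫ φ in (0 : ℝ)..2 * π, qf Fl Fg Fll Flg Fgg η l (yQ a (l, φ))) ≤
      (∫ l in l₁..l₂, ∫ φ in (0 : ℝ)..2 * π, qf Fl Fg Fll Flg Fgg η l (yV (l, φ))) + ε := by
  obtain ⟨C, c₀, hC, hc₀, herr⟩ := compare_err hT.p0 hF hD0 hz l₁ (hb l₁)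
  have hlim := err_tendsto C c₀ (Real.log (4 * p)) l₁ l₂ hC hc₀
  have hev := hlim.eventually (gt_mem_nhds hε)
  rw [eventually_nhdsWithin_iff, Metric.eventually_nhds_iff] at hev
  obtain ⟨δ, hδ, hδ'⟩ := hev
  have hM := Mx_pos l₁
  refine ⟨min (δ / 2) (min (1 / 3) (Mx l₁ / 3)), by positivity, fun η hη hηle => ?_⟩
  have h1 : η ≤ δ / 2 := hηle.trans (min_le_left _ _)
  have h2 : η ≤ 1 / 3 := hηle.trans ((min_le_right _ _).trans (min_le_left _ _))
  have h3 : η ≤ Mx l₁ / 3 := hηle.trans ((min_le_right _ _).trans (min_le_right _ _))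
  have h4 : ∫ l in l₁..l₂, C * η / (c₀ * |l - Real.log (4 * p)| + 2 * η) < ε := by
    refine hδ' ?_ hη
    rw [Real.dist_eq, sub_zero, abs_of_pos hη]
    linarith
  have iQ := (cont_circle hF.data hyQ hη).intervalIntegrable (μ := volume) l₁ l₂
  have iV := (cont_circle hF.data hyV hη).intervalIntegrable (μ := volume) l₁ l₂
  have cE : Continuous fun l : ℝ => C * η / (c₀ * |l - Real.log (4 * p)| + 2 * η) := by
    refine continuous_const.div (by fun_prop) fun l => ?_
    positivity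
  have iE := cE.intervalIntegrable (μ := volume) l₁ l₂
  have h5 : (∫ l in l₁..l₂, ((∫ φ in (0 : ℝ)..2 * π, qf Fl Fg Fll Flg Fgg η l (yQ a (l, φ))) -
      ∫ φ in (0 : ℝ)..2 * π, qf Fl Fg Fll Flg Fgg η l (yV (l, φ)))) ≤
      ∫ l in l₁..l₂, C * η / (c₀ * |l - Real.log (4 * p)| + 2 * η) := by
    refine intervalIntegral.integral_mono_on hl (iQ.sub iV) iE fun l hl' => ?_
    refine (compare_circle hF hyQ hyV hD0 hQ hV hz hη ?_).trans (herr η l hη (by linarith) hl'.1)
    linarith [Mx_mono hl'.1]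
  rw [intervalIntegral.integral_sub iQ iV] at h5
  linarith

end Pool.Agent.H90.EH
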