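import Pool.Agent.H90.EH.LayerFF
import Pool.Agent.H24.EH.Defs

/-!
# EHP (S06849): block `layer` of `Energy.lean` and the comparison on a circle
-/

set_option autoImplicit false

open MeasureTheory Set Filter Topology
open scoped Real

noncomputable section

namespace Pool.Agent.H90.EH

open Pool.Agent.H24.EH
open Pool.Agent.H15.EH (FData D U)
open Pool.Agent.H56.EH (Nv Nz)

/-! ### the profile of `Defs.lean` -/

theorem cont_chi : Continuous chi := by
  unfold chi
  refine Continuous.if_le continuous_const ?_ continuous_id continuous_const ?_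
  · refine Continuous.if_le (by fun_prop) continuous_id continuous_id continuous_const ?_
    intro x hx
    rw [hx]
    norm_num
  · intro x hx
    rw [hx]
    norm_num

theorem cont_chi' : Continuous chi' := by
  unfold chi'
  refine Continuous.if_le continuous_const ?_ continuous_id continuous_const ?_
  · refine Continuous.if_le (by fun_prop) continuous_const continuous_id continuous_const ?_
    intro x hx
    rw [hx]
    norm_num
  · intro x hx
    rw [hx]
    norm_num

theorem cont_chi'' : Continuous chi'' := by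
  unfold chi''
  refine Continuous.if_le continuous_const ?_ continuous_id continuous_const ?_
  · refine Continuous.if_le (by fun_prop) continuous_const continuous_id continuous_const ?_
    intro x hx
    rw [hx]
    norm_num
  · intro x hx
    rw [hx]
    norm_num

theorem chi_low {x : ℝ} (h : x ≤ -1) : chi x = 0 := by unfold chi; simp [h]
theorem chi'_low {x : ℝ} (h : x ≤ -1) : chi' x = 0 := by unfold chi'; simp [h]
theorem chi''_low {x : ℝ} (h : x ≤ -1) : chi'' x = 0 := by unfold chi''; simp [h]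

theorem chi_high {x : ℝ} (h : 1 ≤ x) : chi x = x := by
  unfold chi
  rw [if_neg (by linarith)]
  split_ifs with h2
  · have : x = 1 := le_antisymm h2 h
    rw [this]; norm_num
  · rfl

theorem chi''_high {x : ℝ} (h : 1 ≤ x) : chi'' x = 0 := by
  unfold chi''
  rw [if_neg (by linarith)]
  split_ifs with h2
  · have : x = 1 := le_antisymm h2 h
    rw [this]; norm_num
  · rfl

theorem chi''_nonneg (x : ℝ) : 0 ≤ chi'' x := by
  unfold chi''
  split_ifs with h1 h2
  · exact le_rfl
  · push Not at h1
    nlinarith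
  · exact le_rfl

theorem chi_nonneg (x : ℝ) : 0 ≤ chi x := by
  unfold chi
  split_ifs with h1 h2
  · exact le_rfl
  · push Not at h1
    have : 0 ≤ (x + 1) ^ 3 := by
      have : 0 ≤ x + 1 := by linarith
      positivity
    have h3 : 0 ≤ 3 - x := by linarith
    positivity
  · push Not at h2
    linarith

theorem le_chi (x : ℝ) : x ≤ chi x := by
  unfold chi
  split_ifs with h1 h2
  · linarith
  · push Not at h1
    -- `16 x ≤ (x+1)^3 (3-x)`, difference `(1-x)^3 (x+3)`
    have h3 : 0 ≤ (1 - x) ^ 3 := by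
      have : 0 ≤ 1 - x := by linarith
      positivity
    have h4 : 0 ≤ (1 - x) ^ 3 * (x + 3) := mul_nonneg h3 (by linarith)
    nlinarith
  · exact le_rfl

theorem chi_le {x : ℝ} (h : x ≤ 1) : chi x ≤ 1 := by
  unfold chi
  split_ifs with h1
  · norm_num
  · push Not at h1
    -- `16 - (x+1)^3 (3-x) = (1-x) * (...)`
    have h3 : (x + 1) ^ 3 ≤ 8 := by
      have h0 : 0 ≤ x + 1 := by linarith
      have h2 : x + 1 ≤ 2 := by linarith
      calc (x + 1) ^ 3 ≤ 2 ^ 3 := pow_le_pow_left₀ h0 h2 3
        _ = 8 := by norm_num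
    have h0 : 0 ≤ x + 1 := by linarith
    have h4 : (x + 1) * (3 - x) ≤ 4 := by nlinarith [sq_nonneg (x - 1)]
    have h5 : (x + 1) ^ 2 ≤ 4 := by nlinarith
    have h6 : 0 ≤ (x + 1) ^ 2 := by positivity
    have h7 : 0 ≤ (x + 1) * (3 - x) := mul_nonneg h0 (by linarith)
    have : (x + 1) ^ 3 * (3 - x) ≤ 16 := by
      calc (x + 1) ^ 3 * (3 - x) = (x + 1) ^ 2 * ((x + 1) * (3 - x)) := by ring
        _ ≤ 4 * 4 := mul_le_mul h5 h4 h7 (by norm_num)
        _ = 16 := by norm_num
    linarith

theorem Bp_prof {η : ℝ} (hη : 0 < η) : Prof (Bp η) (B1 η) (B2 η) η (3 * η) where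
  he := hη
  he₂ := by linarith
  cf := by
    unfold Bp
    have := cont_chi
    fun_prop
  c1 := by
    unfold B1
    have := cont_chi'
    fun_prop
  c2 := by
    unfold B2
    have := cont_chi''
    fun_prop
  nonneg t := by
    unfold B2
    exact div_nonneg (chi''_nonneg _) hη.le
  low1 t ht := by
    unfold B1
    apply chi'_low
    rw [div_le_iff₀ hη]
    linarith
  low2 t ht := by
    unfold B2
    rw [chi''_low, zero_div]
    rw [div_le_iff₀ hη]
    linarith
  high2 t ht := by
    unfold B2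
    rw [chi''_high, zero_div]
    rw [le_div_iff₀ hη]
    linarith
  high t ht := by
    unfold Bp
    rw [chi_high]
    · field_simp
      ring
    · rw [le_div_iff₀ hη]
      linarith
  ge t := by
    unfold Bp
    have h := le_chi ((t - 2 * η) / η)
    have h2 : η * ((t - 2 * η) / η) = t - 2 * η := by field_simp
    have h3 := mul_le_mul_of_nonneg_left h hη.le
    linarith
  pos t := by
    unfold Bp
    have := mul_nonneg hη.le (chi_nonneg ((t - 2 * η) / η))
    linarith
  le t ht := by
    unfold Bp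
    have h : (t - 2 * η) / η ≤ 1 := by
      rw [div_le_iff₀ hη]
      linarith
    have := mul_le_mul_of_nonneg_left (chi_le h) hη.le
    linarith

theorem Bp_low {η t : ℝ} (hη : 0 < η) (ht : t ≤ η) : Bp η t = 2 * η := by
  unfold Bp
  rw [chi_low]
  · ring
  · rw [div_le_iff₀ hη]
    linarith

variable {F Fl Fg Fll Flg Fgg Fllg : ℝ → ℝ → ℝ}

/-- the reduced density of `FF` -/
theorem qf_form {η : ℝ} (hη : 0 < η) (l g : ℝ) :
    qf Fl Fg Fll Flg Fgg η l g = Fl l (2 * η) ^ 2 +
      ∫ t in η..max g η, (max g η - t) * (2 * wf Fg Fll Flg Fgg η l t) := by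
  have hP := Bp_prof hη
  have h := q_form (Fl := FFl Fl η) (Fg := FFg Fg η) (Fll := FFll Fll η) (Flg := FFlg Flg η)
    (Fgg := FFgg Fg Fgg η) (e := η) l (by simp [FFg, hP.low1 η le_rfl])
    (fun t ht => by simp [D, FFlg, FFgg, hP.low1 t ht, hP.low2 t ht]) g
  unfold qf
  rw [h]
  simp only [FFl, Bp_low hη le_rfl]
  rfl

theorem cont_wf (h : FData F Fl Fg Fll Flg Fgg Fllg) {η : ℝ} (hη : 0 < η) (l : ℝ) :
    Continuous (wf Fg Fll Flg Fgg η l) := by
  have hB := Bp_prof hη
  have hc : ∀ {f : ℝ → ℝ → ℝ}, ContinuousOn (fun x : ℝ × ℝ => f x.1 x.2) U →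
      Continuous fun t => f l (Bp η t) := by
    intro f hf
    have h1 : Continuous (fun t : ℝ => ((l, Bp η t) : ℝ × ℝ)) := by
      have := hB.cf
      fun_prop
    exact hf.comp_continuous h1 (fun t => hB.pos t)
  have c1 := hB.c1
  have c2 := hB.c2
  have cg := hc h.cg
  have cll := hc h.cll
  have clg := hc h.clg
  have cgg := hc h.cgg
  have e : wf Fg Fll Flg Fgg η l = fun t => (Flg l (Bp η t) * B1 η t) ^ 2 -
      Fll l (Bp η t) * (Fgg l (Bp η t) * B1 η t ^ 2 + Fg l (Bp η t) * B2 η t) := by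
    funext t
    rfl
  rw [e]
  exact ((clg.mul c1).pow 2).sub (cll.mul ((cgg.mul (c1.pow 2)).add (cg.mul c2)))

/-- **(B) layer formula on a circle** (block `layer` of `Energy.lean`) -/
theorem layer (h : FData F Fl Fg Fll Flg Fgg Fllg)
    {y : ℝ × ℝ → ℝ} (hy : YData y) {η : ℝ} (hη : 0 < η) (l T : ℝ) (hT : η ≤ T)
    (hyT : ∀ φ, y (l, φ) ≤ T) :
    (∫ φ in (0 : ℝ)..2 * π, qf Fl Fg Fll Flg Fgg η l (y (l, φ))) =
      2 * π * Fl l (2 * η) ^ 2 + ∫ t in η..T, 2 * wf Fg Fll Flg Fgg η l t * J y l t := by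
  have hab : (0 : ℝ) ≤ 2 * π := by positivity
  have hyc : Continuous fun φ => y (l, φ) := by
    have := hy.cont
    fun_prop
  have hX : ContinuousOn (fun φ => max (y (l, φ)) η) (Icc 0 (2 * π)) :=
    (hyc.max continuous_const).continuousOn
  have h1 : ∫ φ in (0 : ℝ)..2 * π, qf Fl Fg Fll Flg Fgg η l (y (l, φ)) =
      ∫ φ in (0 : ℝ)..2 * π, qf Fl Fg Fll Flg Fgg η l (max (y (l, φ)) η) := by
    refine intervalIntegral.integral_congr fun φ _ => ?_
    rw [qf_form hη, qf_form hη, max_eq_left (le_max_right (y (l, φ)) η)]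
  rw [h1, layer_int (q0 := Fl l (2 * η) ^ 2) (q1 := 0) (M := T) (e := η)
    (w := fun t => 2 * wf Fg Fll Flg Fgg η l t) hab hX (fun φ _ => le_max_right _ _)
    (fun φ _ => max_le (hyT φ) hT)
    (continuous_const.mul (cont_wf h hη l)).continuousOn ?_]
  · rw [zero_mul, add_zero, sub_zero]
    congr 1
    refine intervalIntegral.integral_congr fun t ht => ?_
    rw [uIcc_of_le hT] at ht
    rw [layer_integral_cut ht.1 (fun φ => y (l, φ))]
    rfl
  · intro g hg
    rw [qf_form hη, max_eq_left hg.1]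
    ring

end Pool.Agent.H90.EH
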