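import Mathlib

/-!
# EHP (MP_ff60c2_an): layer comparison on a circle (block E2)

For a profile `q(g) = q0 + q1 (g - e) + ∫_e^g (g - t) w(t) dt` and continuous functions `X, Y ≥ e` on `[a, b]`
the difference of the integrals of `q(X)` and `q(Y)` is a weighted integral of the differences of the layer
integrals `∫ max (X - t) 0`.
-/

set_option autoImplicit false

open MeasureTheory Set

noncomputable section

namespace Pool.Agent.H90.EH

/-- inner layer integral as an integral with a fixed bound -/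
theorem layer_inner {e x M : ℝ} (hex : e ≤ x) (hxM : x ≤ M) {w : ℝ → ℝ}
    (hw : ContinuousOn w (Icc e M)) :
    ∫ t in e..x, (x - t) * w t = ∫ t in e..M, max (x - t) 0 * w t := by
  have hc : ContinuousOn (fun t => max (x - t) 0 * w t) (Icc e M) := by fun_prop
  have h1 : IntervalIntegrable (fun t => max (x - t) 0 * w t) volume e x :=
    (hc.mono (Icc_subset_Icc_right hxM)).intervalIntegrable_of_Icc hex
  have h2 : IntervalIntegrable (fun t => max (x - t) 0 * w t) volume x M :=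
    (hc.mono (Icc_subset_Icc_left hex)).intervalIntegrable_of_Icc hxM
  rw [← intervalIntegral.integral_add_adjacent_intervals h1 h2]
  have h3 : ∫ t in x..M, max (x - t) 0 * w t = 0 := by
    rw [intervalIntegral.integral_congr (g := fun _ => (0 : ℝ))]
    · simp
    · intro t ht
      rw [uIcc_of_le hxM] at ht
      have : x - t ≤ 0 := by linarith [ht.1]
      simp [max_eq_right this]
  rw [h3, add_zero]
  refine intervalIntegral.integral_congr fun t ht => ?_
  rw [uIcc_of_le hex] at ht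
  have : 0 ≤ x - t := by linarith [ht.2]
  simp [max_eq_left this]

/-- continuity of the layer integral `t ↦ ∫ max (X - t) 0` -/
theorem layer_cont {a b : ℝ} (hab : a ≤ b) {X : ℝ → ℝ} (hX : ContinuousOn X (Icc a b)) :
    Continuous fun t : ℝ => ∫ φ in a..b, max (X φ - t) 0 := by
  -- replace X by a continuous extension
  have hX' : Continuous (IccExtend hab (fun φ : Icc a b => X φ)) :=
    (continuousOn_iff_continuous_domRestrict.1 hX).Icc_extend'
  have heq : (fun t : ℝ => ∫ φ in a..b, max (X φ - t) 0) =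
      fun t : ℝ => ∫ φ in a..b, max (IccExtend hab (fun φ : Icc a b => X φ) φ - t) 0 := by
    funext t
    refine intervalIntegral.integral_congr fun φ hφ => ?_
    rw [uIcc_of_le hab] at hφ
    rw [IccExtend_of_mem hab _ hφ]
  rw [heq]
  apply intervalIntegral.continuous_parametric_intervalIntegral_of_continuous'
  fun_prop

/-- **Fubini for layers**: `∫_a^b ∫_e^{X(φ)} (X(φ) - t) w(t) dt dφ = ∫_e^M w(t) ∫_a^b (X(φ) - t)⁺ dφ dt` -/
theorem layer_swap {a b e M : ℝ} (hab : a ≤ b) {X w : ℝ → ℝ}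
    (hX : ContinuousOn X (Icc a b)) (hXe : ∀ φ ∈ Icc a b, e ≤ X φ)
    (hXM : ∀ φ ∈ Icc a b, X φ ≤ M) (hw : ContinuousOn w (Icc e M)) :
    ∫ φ in a..b, (∫ t in e..X φ, (X φ - t) * w t) =
      ∫ t in e..M, w t * ∫ φ in a..b, max (X φ - t) 0 := by
  have heM : e ≤ M := (hXe a (left_mem_Icc.2 hab)).trans (hXM a (left_mem_Icc.2 hab))
  have h1 : ∫ φ in a..b, (∫ t in e..X φ, (X φ - t) * w t) =
      ∫ φ in a..b, ∫ t in e..M, max (X φ - t) 0 * w t := by
    refine intervalIntegral.integral_congr fun φ hφ => ?_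
    rw [uIcc_of_le hab] at hφ
    exact layer_inner (hXe φ hφ) (hXM φ hφ) hw
  rw [h1, intervalIntegral_intervalIntegral_swap]
  · refine intervalIntegral.integral_congr fun t _ => ?_
    rw [← intervalIntegral.integral_const_mul]
    refine intervalIntegral.integral_congr fun φ _ => ?_
    change max (X φ - t) 0 * w t = w t * max (X φ - t) 0
    ring
  · have hc : ContinuousOn (Function.uncurry fun φ t => max (X φ - t) 0 * w t)
        (Icc a b ×ˢ Icc e M) := by
      have e1 : ContinuousOn (fun p : ℝ × ℝ => X p.1) (Icc a b ×ˢ Icc e M) :=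
        hX.comp continuousOn_fst fun p hp => hp.1
      have e2 : ContinuousOn (fun p : ℝ × ℝ => w p.2) (Icc a b ×ˢ Icc e M) :=
        hw.comp continuousOn_snd fun p hp => hp.2
      have e3 : ContinuousOn (fun p : ℝ × ℝ => max (X p.1 - p.2) 0) (Icc a b ×ˢ Icc e M) :=
        (e1.sub continuousOn_snd).sup continuousOn_const
      exact e3.mul e2
    have h2 := hc.integrableOn_compact (isCompact_Icc.prod isCompact_Icc)
      (μ := (volume : Measure (ℝ × ℝ)))
    refine h2.mono_set ?_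
    rw [uIoc_of_le hab, uIoc_of_le heM]
    exact prod_mono Ioc_subset_Icc_self Ioc_subset_Icc_self

theorem layer_cont_inner {a b e M : ℝ} (hab : a ≤ b) {X w : ℝ → ℝ}
    (hX : ContinuousOn X (Icc a b)) (hXe : ∀ φ ∈ Icc a b, e ≤ X φ)
    (hXM : ∀ φ ∈ Icc a b, X φ ≤ M) (hw : ContinuousOn w (Icc e M)) :
    IntervalIntegrable (fun φ => ∫ t in e..X φ, (X φ - t) * w t) volume a b := by
  have heM : e ≤ M := (hXe a (left_mem_Icc.2 hab)).trans (hXM a (left_mem_Icc.2 hab))
  have hX' : Continuous (IccExtend hab (fun φ : Icc a b => X φ)) :=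
    (continuousOn_iff_continuous_domRestrict.1 hX).Icc_extend'
  have hw' : Continuous (IccExtend heM (fun t : Icc e M => w t)) :=
    (continuousOn_iff_continuous_domRestrict.1 hw).Icc_extend'
  have hc : Continuous fun φ : ℝ => ∫ t in e..M,
      max (IccExtend hab (fun φ : Icc a b => X φ) φ - t) 0 * IccExtend heM (fun t : Icc e M => w t) t := by
    apply intervalIntegral.continuous_parametric_intervalIntegral_of_continuous'
    fun_prop
  refine (hc.continuousOn (s := Icc a b)).intervalIntegrable_of_Icc hab |>.congr ?_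
  rw [uIoc_of_le hab]
  intro φ hφ
  have hφ' : φ ∈ Icc a b := Ioc_subset_Icc_self hφ
  change _ = ∫ t in e..X φ, (X φ - t) * w t
  rw [layer_inner (hXe φ hφ') (hXM φ hφ') hw]
  refine intervalIntegral.integral_congr fun t ht => ?_
  rw [uIcc_of_le heM] at ht
  rw [IccExtend_of_mem hab _ hφ', IccExtend_of_mem heM _ ht]

/-- the integral of a profile -/
theorem layer_int {a b e M : ℝ} (hab : a ≤ b) {X w q : ℝ → ℝ} {q0 q1 : ℝ}
    (hX : ContinuousOn X (Icc a b)) (hXe : ∀ φ ∈ Icc a b, e ≤ X φ)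
    (hXM : ∀ φ ∈ Icc a b, X φ ≤ M) (hw : ContinuousOn w (Icc e M))
    (hq : ∀ g ∈ Icc e M, q g = q0 + q1 * (g - e) + ∫ t in e..g, (g - t) * w t) :
    ∫ φ in a..b, q (X φ) = (b - a) * q0 + q1 * ((∫ φ in a..b, X φ) - (b - a) * e) +
      ∫ t in e..M, w t * ∫ φ in a..b, max (X φ - t) 0 := by
  have hXi : IntervalIntegrable X volume a b := hX.intervalIntegrable_of_Icc hab
  have h1 : ∫ φ in a..b, q (X φ) =
      ∫ φ in a..b, ((q0 + q1 * (X φ - e)) + ∫ t in e..X φ, (X φ - t) * w t) := by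
    refine intervalIntegral.integral_congr fun φ hφ => ?_
    rw [uIcc_of_le hab] at hφ
    exact hq _ ⟨hXe φ hφ, hXM φ hφ⟩
  have h2 : IntervalIntegrable (fun φ => q0 + q1 * (X φ - e)) volume a b :=
    intervalIntegrable_const.add ((hXi.sub intervalIntegrable_const).const_mul q1)
  rw [h1, intervalIntegral.integral_add h2 (layer_cont_inner hab hX hXe hXM hw),
    layer_swap hab hX hXe hXM hw,
    intervalIntegral.integral_add intervalIntegrable_const
      ((hXi.sub intervalIntegrable_const).const_mul q1),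
    intervalIntegral.integral_const_mul, intervalIntegral.integral_sub hXi intervalIntegrable_const,
    intervalIntegral.integral_const, intervalIntegral.integral_const]
  simp only [smul_eq_mul]

/-- **Layer comparison, equality** -/
theorem layer_diff {a b e M : ℝ} (hab : a ≤ b) {X Y w q : ℝ → ℝ} {q0 q1 : ℝ}
    (hX : ContinuousOn X (Icc a b)) (hXe : ∀ φ ∈ Icc a b, e ≤ X φ)
    (hXM : ∀ φ ∈ Icc a b, X φ ≤ M)
    (hY : ContinuousOn Y (Icc a b)) (hYe : ∀ φ ∈ Icc a b, e ≤ Y φ)
    (hYM : ∀ φ ∈ Icc a b, Y φ ≤ M) (hw : ContinuousOn w (Icc e M))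
    (hq : ∀ g ∈ Icc e M, q g = q0 + q1 * (g - e) + ∫ t in e..g, (g - t) * w t) :
    (∫ φ in a..b, q (X φ)) - ∫ φ in a..b, q (Y φ) =
      q1 * ((∫ φ in a..b, X φ) - ∫ φ in a..b, Y φ) +
      ∫ t in e..M, w t * ((∫ φ in a..b, max (X φ - t) 0) - ∫ φ in a..b, max (Y φ - t) 0) := by
  have heM : e ≤ M := (hXe a (left_mem_Icc.2 hab)).trans (hXM a (left_mem_Icc.2 hab))
  have i1 : IntervalIntegrable (fun t => w t * ∫ φ in a..b, max (X φ - t) 0) volume e M :=
    (hw.mul (layer_cont hab hX).continuousOn).intervalIntegrable_of_Icc heM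
  have i2 : IntervalIntegrable (fun t => w t * ∫ φ in a..b, max (Y φ - t) 0) volume e M :=
    (hw.mul (layer_cont hab hY).continuousOn).intervalIntegrable_of_Icc heM
  rw [layer_int hab hX hXe hXM hw hq, layer_int hab hY hYe hYM hw hq]
  simp only [mul_sub]
  rw [intervalIntegral.integral_sub i1 i2]
  ring

/-- **Layer comparison**: only the weight where the layer integrals differ matters. -/
theorem layer_le {a b e M : ℝ} (hab : a ≤ b) {X Y w q : ℝ → ℝ} {q0 q1 : ℝ}
    (hX : ContinuousOn X (Icc a b)) (hXe : ∀ φ ∈ Icc a b, e ≤ X φ)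
    (hXM : ∀ φ ∈ Icc a b, X φ ≤ M)
    (hY : ContinuousOn Y (Icc a b)) (hYe : ∀ φ ∈ Icc a b, e ≤ Y φ)
    (hYM : ∀ φ ∈ Icc a b, Y φ ≤ M) (hw : ContinuousOn w (Icc e M))
    (hq : ∀ g ∈ Icc e M, q g = q0 + q1 * (g - e) + ∫ t in e..g, (g - t) * w t)
    (hJ : ∀ t ∈ Icc e M, w t < 0 →
      ∫ φ in a..b, max (X φ - t) 0 = ∫ φ in a..b, max (Y φ - t) 0)
    (hJ' : ∀ t ∈ Icc e M, ∫ φ in a..b, max (X φ - t) 0 ≤ ∫ φ in a..b, max (Y φ - t) 0) :
    (∫ φ in a..b, q (X φ)) - ∫ φ in a..b, q (Y φ) ≤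
      q1 * ((∫ φ in a..b, X φ) - ∫ φ in a..b, Y φ) := by
  have heM : e ≤ M := (hXe a (left_mem_Icc.2 hab)).trans (hXM a (left_mem_Icc.2 hab))
  rw [layer_diff hab hX hXe hXM hY hYe hYM hw hq]
  have : ∫ t in e..M, w t * ((∫ φ in a..b, max (X φ - t) 0) -
      ∫ φ in a..b, max (Y φ - t) 0) ≤ 0 := by
    have h0 : 0 ≤ ∫ t in e..M, -(w t * ((∫ φ in a..b, max (X φ - t) 0) -
        ∫ φ in a..b, max (Y φ - t) 0)) := by
      apply intervalIntegral.integral_nonneg heM
      intro t ht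
      by_cases hwt : w t < 0
      · rw [hJ t ht hwt, sub_self, mul_zero, neg_zero]
      · have := mul_nonneg (not_lt.1 hwt) (sub_nonneg.2 (hJ' t ht))
        linarith
    rw [intervalIntegral.integral_neg] at h0
    linarith
  linarith

/-- the same with an explicit range `[m, M']` outside which the layer integrals agree -/
theorem layer_le_range {a b e M m M' : ℝ} (hab : a ≤ b) {X Y w q : ℝ → ℝ} {q0 q1 : ℝ}
    (hX : ContinuousOn X (Icc a b)) (hXe : ∀ φ ∈ Icc a b, e ≤ X φ)
    (hXM : ∀ φ ∈ Icc a b, X φ ≤ M)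
    (hY : ContinuousOn Y (Icc a b)) (hYe : ∀ φ ∈ Icc a b, e ≤ Y φ)
    (hYM : ∀ φ ∈ Icc a b, Y φ ≤ M) (hw : ContinuousOn w (Icc e M))
    (hq : ∀ g ∈ Icc e M, q g = q0 + q1 * (g - e) + ∫ t in e..g, (g - t) * w t)
    (hwp : ∀ t ∈ Icc e M, m ≤ t → t ≤ M' → 0 ≤ w t)
    (hJm : ∀ t ∈ Icc e M, t < m →
      ∫ φ in a..b, max (X φ - t) 0 = ∫ φ in a..b, max (Y φ - t) 0)
    (hJM : ∀ t ∈ Icc e M, M' < t →
      ∫ φ in a..b, max (X φ - t) 0 = ∫ φ in a..b, max (Y φ - t) 0)
    (hJ' : ∀ t ∈ Icc e M, ∫ φ in a..b, max (X φ - t) 0 ≤ ∫ φ in a..b, max (Y φ - t) 0) :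
    (∫ φ in a..b, q (X φ)) - ∫ φ in a..b, q (Y φ) ≤
      q1 * ((∫ φ in a..b, X φ) - ∫ φ in a..b, Y φ) := by
  refine layer_le hab hX hXe hXM hY hYe hYM hw hq (fun t ht hwt => ?_) hJ'
  by_cases h1 : t < m
  · exact hJm t ht h1
  · by_cases h2 : M' < t
    · exact hJM t ht h2
    · exact absurd (hwp t ht (not_lt.1 h1) (not_lt.1 h2)) (not_le.2 hwt)

/-- the layer integrals vanish above the maximum -/
theorem layer_zero {a b t : ℝ} (hab : a ≤ b) {X : ℝ → ℝ} (h : ∀ φ ∈ Icc a b, X φ ≤ t) :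
    ∫ φ in a..b, max (X φ - t) 0 = 0 := by
  rw [intervalIntegral.integral_congr (g := fun _ => (0 : ℝ))]
  · simp
  · intro φ hφ
    rw [uIcc_of_le hab] at hφ
    have : X φ - t ≤ 0 := by linarith [h φ hφ]
    simp [max_eq_right this]

/-- the layer integrals below the minimum -/
theorem layer_below {a b t : ℝ} (hab : a ≤ b) {X : ℝ → ℝ} (hX : ContinuousOn X (Icc a b))
    (h : ∀ φ ∈ Icc a b, t ≤ X φ) :
    ∫ φ in a..b, max (X φ - t) 0 = (∫ φ in a..b, X φ) - (b - a) * t := by
  rw [intervalIntegral.integral_congr (g := fun φ => X φ - t)]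
  · rw [intervalIntegral.integral_sub (hX.intervalIntegrable_of_Icc hab) intervalIntegrable_const,
      intervalIntegral.integral_const, smul_eq_mul]
  · intro φ hφ
    rw [uIcc_of_le hab] at hφ
    have : 0 ≤ X φ - t := by linarith [h φ hφ]
    simp [max_eq_left this]

/-- layers of the cut function `max x e` above `e` -/
theorem layer_cut {e t x : ℝ} (h : e ≤ t) : max (max x e - t) 0 = max (x - t) 0 := by
  rcases le_total x e with h1 | h1
  · rw [max_eq_right h1, max_eq_right (by linarith), max_eq_right (by linarith)]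
  · rw [max_eq_left h1]

end Pool.Agent.H90.EH
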