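import Pool.Agent.H90.EH.Layer
import Pool.Agent.H15.EH.Q
import Pool.Agent.H10.EH.FC

/-!
# EHP (MP_ff60c2_an): layer comparison in the form `FF` (block A3)

The test function is `FF (l, t) = F (l, B t)` with a `C²` profile `B`, constant for `t ≤ e`.  The functions
`X, Y` are arbitrary below the level `e` (only `max X e`, `max Y e` have to be continuous).
-/

set_option autoImplicit false

open MeasureTheory Set

noncomputable section

namespace Pool.Agent.H90.EH

/-- the difference of the layer integrals -/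
def Dl (a b : ℝ) (X Y : ℝ → ℝ) (t : ℝ) : ℝ :=
  (∫ φ in a..b, max (Y φ - t) 0) - ∫ φ in a..b, max (X φ - t) 0

theorem layer_integral_cut {a b e t : ℝ} (h : e ≤ t) (X : ℝ → ℝ) :
    ∫ φ in a..b, max (max (X φ) e - t) 0 = ∫ φ in a..b, max (X φ - t) 0 := by
  refine intervalIntegral.integral_congr fun φ _ => ?_
  exact layer_cut h

/-- `t ↦ ∫ max (X - t) 0` is continuous for `t ≥ e` if the cut function is -/
theorem layer_contOn {a b e : ℝ} (hab : a ≤ b) {X : ℝ → ℝ}
    (hX : ContinuousOn (fun φ => max (X φ) e) (Icc a b)) :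
    ContinuousOn (fun t : ℝ => ∫ φ in a..b, max (X φ - t) 0) (Ici e) := by
  refine (layer_cont hab hX).continuousOn.congr fun t ht => ?_
  exact (layer_integral_cut ht X).symm

theorem Dl_contOn {a b e : ℝ} (hab : a ≤ b) {X Y : ℝ → ℝ}
    (hX : ContinuousOn (fun φ => max (X φ) e) (Icc a b))
    (hY : ContinuousOn (fun φ => max (Y φ) e) (Icc a b)) :
    ContinuousOn (Dl a b X Y) (Ici e) :=
  (layer_contOn hab hY).sub (layer_contOn hab hX)

/-- **FF layer comparison, equality.** -/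
theorem layer_FF {a b e M q0 : ℝ} (hab : a ≤ b) (heM : e ≤ M) {X Y q w : ℝ → ℝ}
    (hX : ContinuousOn (fun φ => max (X φ) e) (Icc a b)) (hXM : ∀ φ ∈ Icc a b, X φ ≤ M)
    (hY : ContinuousOn (fun φ => max (Y φ) e) (Icc a b)) (hYM : ∀ φ ∈ Icc a b, Y φ ≤ M)
    (hw : ContinuousOn w (Icc e M))
    (hq : ∀ g ≤ M, q g = q0 + ∫ t in e..max g e, (max g e - t) * w t) :
    (∫ φ in a..b, q (X φ)) - ∫ φ in a..b, q (Y φ) = - ∫ t in e..M, w t * Dl a b X Y t := by
  have key : ∀ Z : ℝ → ℝ, (∀ φ ∈ Icc a b, Z φ ≤ M) →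
      ∫ φ in a..b, q (Z φ) = ∫ φ in a..b, q (max (Z φ) e) := by
    intro Z hZ
    refine intervalIntegral.integral_congr fun φ hφ => ?_
    rw [uIcc_of_le hab] at hφ
    rw [hq _ (hZ φ hφ), hq _ (max_le (hZ φ hφ) heM), max_eq_left (le_max_right (Z φ) e)]
  rw [key X hXM, key Y hYM, layer_diff (q1 := 0) (q0 := q0) (M := M) (w := w) hab hX
    (fun φ _ => le_max_right _ _) (fun φ hφ => max_le (hXM φ hφ) heM) hY
    (fun φ _ => le_max_right _ _) (fun φ hφ => max_le (hYM φ hφ) heM) hw ?_]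
  · rw [zero_mul, zero_add, ← intervalIntegral.integral_neg]
    refine intervalIntegral.integral_congr fun t ht => ?_
    rw [uIcc_of_le heM] at ht
    change w t * ((∫ φ in a..b, max (max (X φ) e - t) 0) - ∫ φ in a..b, max (max (Y φ) e - t) 0)
      = - (w t * Dl a b X Y t)
    rw [layer_integral_cut ht.1, layer_integral_cut ht.1]
    unfold Dl
    ring
  · intro g hg
    rw [hq g hg.2, max_eq_left hg.1]
    ring

/-- **FF layer comparison, inequality.** The weight is `B'^2 W - 2 B'' P`, `B'' = 0` for `t ≥ e₂`. -/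
theorem layer_FF_le {a b e e₂ M q0 : ℝ} (hab : a ≤ b) (he : e ≤ e₂) (heM : e₂ ≤ M)
    {X Y q w W P B1 B2 : ℝ → ℝ}
    (hX : ContinuousOn (fun φ => max (X φ) e) (Icc a b)) (hXM : ∀ φ ∈ Icc a b, X φ ≤ M)
    (hY : ContinuousOn (fun φ => max (Y φ) e) (Icc a b)) (hYM : ∀ φ ∈ Icc a b, Y φ ≤ M)
    (hw : ContinuousOn w (Icc e M))
    (hq : ∀ g ≤ M, q g = q0 + ∫ t in e..max g e, (max g e - t) * w t)
    (hwW : ∀ t ∈ Icc e M, w t = B1 t ^ 2 * W t - 2 * B2 t * P t)
    (hB2 : ∀ t, 0 ≤ B2 t) (hB20 : ∀ t, e₂ ≤ t → B2 t = 0)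
    (hB2c : ContinuousOn B2 (Icc e M)) (hPc : ContinuousOn P (Icc e M))
    (hD : ∀ t ∈ Icc e M, 0 ≤ Dl a b X Y t)
    (hW : ∀ t ∈ Icc e M, Dl a b X Y t ≠ 0 → 0 ≤ W t) :
    (∫ φ in a..b, q (X φ)) - ∫ φ in a..b, q (Y φ) ≤
      ∫ t in e..e₂, 2 * B2 t * |P t| * Dl a b X Y t := by
  have heM' : e ≤ M := he.trans heM
  have hDc : ContinuousOn (Dl a b X Y) (Icc e M) :=
    (Dl_contOn hab hX hY).mono Icc_subset_Ici_self
  rw [layer_FF hab heM' hX hXM hY hYM hw hq, ← intervalIntegral.integral_neg]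
  have hc2 : ContinuousOn (fun t => 2 * B2 t * |P t| * Dl a b X Y t) (Icc e M) :=
    ((continuousOn_const.mul hB2c).mul hPc.abs).mul hDc
  have h1 : ∫ t in e..e₂, 2 * B2 t * |P t| * Dl a b X Y t =
      ∫ t in e..M, 2 * B2 t * |P t| * Dl a b X Y t := by
    rw [← intervalIntegral.integral_add_adjacent_intervals (b := e₂) (c := M)
      ((hc2.mono (Icc_subset_Icc_right heM)).intervalIntegrable_of_Icc he)
      ((hc2.mono (Icc_subset_Icc_left he)).intervalIntegrable_of_Icc heM)]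
    have : ∫ t in e₂..M, 2 * B2 t * |P t| * Dl a b X Y t = 0 := by
      rw [intervalIntegral.integral_congr (g := fun _ => (0 : ℝ))]
      · simp
      · intro t ht
        rw [uIcc_of_le heM] at ht
        simp [hB20 t ht.1]
    rw [this, add_zero]
  rw [h1]
  refine intervalIntegral.integral_mono_on heM' ?_ (hc2.intervalIntegrable_of_Icc heM') ?_
  · exact ((hw.mul hDc).neg).intervalIntegrable_of_Icc heM'
  · intro t ht
    by_cases h0 : Dl a b X Y t = 0
    · rw [h0]; simp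
    · have hW' := hW t ht h0
      have hD' := hD t ht
      have hP2 := le_abs_self (P t)
      rw [hwW t ht]
      have e1 : 0 ≤ B1 t ^ 2 * W t * Dl a b X Y t := by positivity
      have e2 : B2 t * P t * Dl a b X Y t ≤ B2 t * |P t| * Dl a b X Y t := by
        apply mul_le_mul_of_nonneg_right _ hD'
        exact mul_le_mul_of_nonneg_left hP2 (hB2 t)
      nlinarith [e1, e2]

/-! ### with the reduced density `q` of `Pool.Agent.H15.EH.Q` -/

open Pool.Agent.H15.EH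

variable {F Fl Fg Fll Flg Fgg Fllg : ℝ → ℝ → ℝ}

/-- `q` for a test function which is constant in `g` below the level `e` -/
theorem q_form {e : ℝ} (l : ℝ) (hg0 : Fg l e = 0)
    (hlow : ∀ t, t ≤ e → D Fll Flg Fgg l t = 0) (g : ℝ) :
    Pool.Agent.H15.EH.q Fl Fg Fll Flg Fgg e l g =
      Fl l e ^ 2 + ∫ t in e..max g e, (max g e - t) * (2 * D Fll Flg Fgg l t) := by
  unfold Pool.Agent.H15.EH.q
  rw [hg0]
  rcases le_total g e with h | h
  · rw [max_eq_right h]
    have : ∫ t in e..g, (g - t) * D Fll Flg Fgg l t = 0 := by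
      rw [intervalIntegral.integral_congr (g := fun _ => (0 : ℝ))]
      · simp
      · intro t ht
        rw [uIcc_of_ge h] at ht
        simp [hlow t ht.2]
    rw [this]
    simp
  · rw [max_eq_left h, ← intervalIntegral.integral_const_mul]
    have : ∫ t in e..g, 2 * ((g - t) * D Fll Flg Fgg l t) =
        ∫ t in e..g, (g - t) * (2 * D Fll Flg Fgg l t) := by
      refine intervalIntegral.integral_congr fun t _ => ?_
      ring
    rw [this]
    ring

/-- a profile: constant below `e`, the identity above `e₂` -/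
structure Prof (Bf B1 B2 : ℝ → ℝ) (e e₂ : ℝ) : Prop where
  he : 0 < e
  he₂ : e ≤ e₂
  cf : Continuous Bf
  c1 : Continuous B1
  c2 : Continuous B2
  nonneg : ∀ t, 0 ≤ B2 t
  low1 : ∀ t, t ≤ e → B1 t = 0
  low2 : ∀ t, t ≤ e → B2 t = 0
  high2 : ∀ t, e₂ ≤ t → B2 t = 0
  high : ∀ t, e₂ ≤ t → Bf t = t
  ge : ∀ t, t ≤ Bf t
  pos : ∀ t, 0 < Bf t
  le : ∀ t, t ≤ e₂ → Bf t ≤ e₂

/-- **A3, generic profile.** The comparison of the reduced energies of two level functions on a circle, for the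
test function `F (l, B t)`. Below the level `e` the functions are arbitrary. -/
theorem layer_FData (h : FData F Fl Fg Fll Flg Fgg Fllg) {Bf B1 B2 : ℝ → ℝ} {e e₂ : ℝ}
    (hB : Prof Bf B1 B2 e e₂) {a b M : ℝ} (hab : a ≤ b) (heM : e₂ ≤ M) (l : ℝ) {X Y : ℝ → ℝ}
    (hX : ContinuousOn (fun φ => max (X φ) e) (Icc a b)) (hXM : ∀ φ ∈ Icc a b, X φ ≤ M)
    (hY : ContinuousOn (fun φ => max (Y φ) e) (Icc a b)) (hYM : ∀ φ ∈ Icc a b, Y φ ≤ M)
    (hD : ∀ t ∈ Icc e M, 0 ≤ Dl a b X Y t)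
    (hW : ∀ t ∈ Icc e M, Dl a b X Y t ≠ 0 →
      0 ≤ Flg l (Bf t) ^ 2 - Fll l (Bf t) * Fgg l (Bf t)) :
    (∫ φ in a..b, Pool.Agent.H15.EH.q (fun l t => Fl l (Bf t)) (fun l t => Fg l (Bf t) * B1 t)
        (fun l t => Fll l (Bf t)) (fun l t => Flg l (Bf t) * B1 t)
        (fun l t => Fgg l (Bf t) * B1 t ^ 2 + Fg l (Bf t) * B2 t) e l (X φ)) -
      (∫ φ in a..b, Pool.Agent.H15.EH.q (fun l t => Fl l (Bf t)) (fun l t => Fg l (Bf t) * B1 t)
        (fun l t => Fll l (Bf t)) (fun l t => Flg l (Bf t) * B1 t)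
        (fun l t => Fgg l (Bf t) * B1 t ^ 2 + Fg l (Bf t) * B2 t) e l (Y φ)) ≤
      ∫ t in e..e₂, 2 * B2 t * |Fll l (Bf t) * Fg l (Bf t)| * Dl a b X Y t := by
  have hc : ∀ {f : ℝ → ℝ → ℝ}, ContinuousOn (fun x : ℝ × ℝ => f x.1 x.2) U →
      Continuous fun t => f l (Bf t) := by
    intro f hf
    have h1 : Continuous (fun t : ℝ => ((l, Bf t) : ℝ × ℝ)) := by
      have := hB.cf
      fun_prop
    exact hf.comp_continuous h1 (fun t => hB.pos t)
  have c1 := hB.c1
  have c2 := hB.c2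
  have cg := hc h.cg
  have cll := hc h.cll
  have clg := hc h.clg
  have cgg := hc h.cgg
  refine layer_FF_le (q0 := Fl l (Bf e) ^ 2) (M := M)
    (w := fun t => 2 * D (fun l t => Fll l (Bf t)) (fun l t => Flg l (Bf t) * B1 t)
        (fun l t => Fgg l (Bf t) * B1 t ^ 2 + Fg l (Bf t) * B2 t) l t)
    (W := fun t => 2 * (Flg l (Bf t) ^ 2 - Fll l (Bf t) * Fgg l (Bf t)))
    (P := fun t => Fll l (Bf t) * Fg l (Bf t)) (B1 := B1) (B2 := B2) hab hB.he₂ heM hX hXM hY hYM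
    ?_ ?_ ?_ hB.nonneg hB.high2 c2.continuousOn ?_ hD ?_
  · simp only [D]
    exact (continuous_const.mul (((clg.mul c1).pow 2).sub
      (cll.mul ((cgg.mul (c1.pow 2)).add (cg.mul c2))))).continuousOn
  · intro g _
    refine q_form l ?_ ?_ g
    · simp [hB.low1 e le_rfl]
    · intro t ht
      simp [D, hB.low1 t ht, hB.low2 t ht]
  · intro t _
    simp only [D]
    ring
  · exact (cll.mul cg).continuousOn
  · intro t ht h0
    have := hW t ht h0
    change 0 ≤ 2 * (Flg l (Bf t) ^ 2 - Fll l (Bf t) * Fgg l (Bf t))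
    linarith

end Pool.Agent.H90.EH
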